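import Mathlib

/-!
# Las Vegas automata can be quadratically larger than Las Vegas message complexity
-/

set_option autoImplicit false

namespace Pool.Agent.Results.MP_7e58b6_lc.QuadraticGap

open scoped Classical

/-- A Las Vegas finite automaton: a finite set of states, a start state, disjoint sets of
accepting and rejecting states (the other states are neutral), and for each state and letter a
probability distribution on the next states. -/
structure LVFA (S : Type) where
  Q : Type
  [fin : Fintype Q]
  start : Q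
  acc : Set Q
  rej : Set Q
  disj : Disjoint acc rej
  P : Q → S → Q → ℝ
  P_nonneg : ∀ q a q', 0 ≤ P q a q'
  P_sum : ∀ q a, ∑ q', P q a q' = 1

attribute [instance] LVFA.fin

variable {S : Type}

namespace LVFA

/-- one step of the Markov process -/
def step (M : LVFA S) (μ : M.Q → ℝ) (a : S) : M.Q → ℝ := fun q' => ∑ q, μ q * M.P q a q'

/-- the distribution on the states after having read `w`, for the initial distribution `μ` -/
def run (M : LVFA S) (μ : M.Q → ℝ) (w : List S) : M.Q → ℝ := w.foldl M.step μ

/-- the probability distribution on the states after having read `w` from the start state -/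
noncomputable def dist (M : LVFA S) (w : List S) : M.Q → ℝ :=
  M.run (fun q => if q = M.start then 1 else 0) w

/-- the probability of being in a state of the set `A` after having read `w` -/
noncomputable def mass (M : LVFA S) (w : List S) (A : Set M.Q) : ℝ := ∑ q, A.indicator (M.dist w) q

/-- The automaton recognises `L`: it never errs, and it answers with probability at least `1/2`. -/
def Recognises (M : LVFA S) (L : Language S) : Prop :=
  ∀ w, (w ∈ L → (∀ q ∈ M.rej, M.dist w q = 0) ∧ 1 / 2 ≤ M.mass w M.acc) ∧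
    (w ∉ L → (∀ q ∈ M.acc, M.dist w q = 0) ∧ 1 / 2 ≤ M.mass w M.rej)

end LVFA

/-- `lvs(L)` is the least number of states of a Las Vegas finite automaton recognising `L`. -/
noncomputable def lvs (L : Language S) : ℕ :=
  sInf {n | ∃ M : LVFA S, M.Recognises L ∧ n = Fintype.card M.Q}

/-- A one-way protocol with finitely many messages: for each `x` a probability distribution on the
messages, for each `y` and each message a probability distribution on the outputs `some true`
(`1`), `some false` (`0`) and `none` (`?`). -/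
structure Protocol (S : Type) where
  Msg : Type
  [fin : Fintype Msg]
  μ : List S → Msg → ℝ
  μ_nonneg : ∀ x m, 0 ≤ μ x m
  μ_sum : ∀ x, ∑ m, μ x m = 1
  out : List S → Msg → Option Bool → ℝ
  out_nonneg : ∀ y m o, 0 ≤ out y m o
  out_sum : ∀ y m, ∑ o, out y m o = 1

attribute [instance] Protocol.fin

namespace Protocol

/-- It is a Las Vegas protocol for `L`: the output is never wrong, and it is correct with
probability at least `1/2`. -/
def Computes (p : Protocol S) (L : Language S) : Prop :=
  ∀ x y, (∀ m, 0 < p.μ x m → p.out y m (some (!decide (x ++ y ∈ L))) = 0) ∧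
    1 / 2 ≤ ∑ m, p.μ x m * p.out y m (some (decide (x ++ y ∈ L)))

/-- the message complexity: the number of the messages that are sent with positive probability
for some `x` -/
noncomputable def complexity (p : Protocol S) : ℕ := Nat.card {m // ∃ x, 0 < p.μ x m}

end Protocol

/-- `lvmc(L)` is the least message complexity of a Las Vegas protocol for `L`. -/
noncomputable def lvmc (L : Language S) : ℕ :=
  sInf {n | ∃ p : Protocol S, p.Computes L ∧ n = p.complexity}

/-- `G(m)`, the supremum of `lvs(L)` over the regular languages `L` over the alphabet `S` with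
`lvmc(L) ≤ m` -/
noncomputable def G (S : Type) (m : ℕ) : ℕ∞ :=
  ⨆ (L : Language S) (_ : L.IsRegular) (_ : lvmc L ≤ m), (lvs L : ℕ∞)

/-! ### Generalities on LVFA -/

namespace LVFA

variable (M : LVFA S)

/-- the distribution after reading `w` from state `q` -/
noncomputable def from_ (q : M.Q) (w : List S) : M.Q → ℝ :=
  M.run (fun q' => if q' = q then 1 else 0) w

theorem run_linear (w : List S) : ∀ (μ : M.Q → ℝ) (q' : M.Q),
    M.run μ w q' = ∑ q, μ q * M.from_ q w q' := by
  induction w with
  | nil => intro μ q'; simp [run, from_]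
  | cons a w ih =>
    intro μ q'
    have h1 : ∀ ν : M.Q → ℝ, M.run ν (a :: w) = M.run (M.step ν a) w := fun ν => rfl
    rw [h1, ih]
    have h2 : ∀ q, M.from_ q (a :: w) q' = ∑ r, M.P q a r * M.from_ r w q' := by
      intro q
      unfold from_
      rw [h1, ih]
      refine Finset.sum_congr rfl fun r _ => ?_
      congr 1
      simp [step]
    simp only [h2, step, Finset.sum_mul, Finset.mul_sum, mul_assoc]
    rw [Finset.sum_comm]

theorem run_append (μ : M.Q → ℝ) (u v : List S) : M.run μ (u ++ v) = M.run (M.run μ u) v := by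
  unfold run
  rw [List.foldl_append]

theorem dist_append (u v : List S) (q' : M.Q) :
    M.dist (u ++ v) q' = ∑ q, M.dist u q * M.from_ q v q' := by
  unfold dist
  rw [run_append, run_linear]

theorem run_nonneg (w : List S) : ∀ (μ : M.Q → ℝ), (∀ q, 0 ≤ μ q) → ∀ q, 0 ≤ M.run μ w q := by
  induction w with
  | nil => intro μ h; exact h
  | cons a w ih =>
    intro μ h
    exact ih _ fun q => Finset.sum_nonneg fun r _ => mul_nonneg (h r) (M.P_nonneg _ _ _)

theorem run_sum (w : List S) : ∀ (μ : M.Q → ℝ), ∑ q, M.run μ w q = ∑ q, μ q := by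
  induction w with
  | nil => intro μ; rfl
  | cons a w ih =>
    intro μ
    change ∑ q, M.run (M.step μ a) w q = _
    rw [ih]
    unfold step
    rw [Finset.sum_comm]
    refine Finset.sum_congr rfl fun q _ => ?_
    rw [← Finset.mul_sum, M.P_sum, mul_one]

theorem dist_nonneg (w : List S) (q : M.Q) : 0 ≤ M.dist w q :=
  M.run_nonneg w _ (fun q => by split_ifs <;> norm_num) q

theorem from_nonneg (q : M.Q) (w : List S) (q' : M.Q) : 0 ≤ M.from_ q w q' :=
  M.run_nonneg w _ (fun q => by split_ifs <;> norm_num) q'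

theorem dist_sum (w : List S) : ∑ q, M.dist w q = 1 := by
  unfold dist
  rw [run_sum]
  simp

theorem from_sum (q : M.Q) (w : List S) : ∑ q', M.from_ q w q' = 1 := by
  unfold from_
  rw [run_sum]
  simp

theorem dist_append_pos {u v : List S} {q q' : M.Q} (h : 0 < M.dist u q)
    (h' : 0 < M.from_ q v q') : 0 < M.dist (u ++ v) q' := by
  rw [dist_append]
  exact Finset.sum_pos' (fun r _ => mul_nonneg (M.dist_nonneg _ _) (M.from_nonneg _ _ _))
    ⟨q, Finset.mem_univ _, mul_pos h h'⟩

theorem mass_append (u v : List S) (A : Set M.Q) :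
    M.mass (u ++ v) A = ∑ q, M.dist u q * ∑ q', A.indicator (M.from_ q v) q' := by
  unfold mass
  simp only [Finset.mul_sum]
  rw [Finset.sum_comm]
  refine Finset.sum_congr rfl fun q' _ => ?_
  by_cases h : q' ∈ A
  · simp [h, dist_append]
  · simp [h]

theorem mass_compl (w : List S) (A : Set M.Q) : M.mass w A + M.mass w Aᶜ = 1 := by
  rw [← M.dist_sum w]
  unfold mass
  rw [← Finset.sum_add_distrib]
  refine Finset.sum_congr rfl fun q _ => ?_
  exact Set.indicator_self_add_compl_apply A (M.dist w) q

theorem mass_nonneg (w : List S) (A : Set M.Q) : 0 ≤ M.mass w A :=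
  Finset.sum_nonneg fun _ _ => Set.indicator_nonneg (fun _ _ => M.dist_nonneg _ _) _

theorem mass_union (w : List S) (A B : Set M.Q) :
    M.mass w (A ∪ B) + M.mass w (A ∩ B) = M.mass w A + M.mass w B := by
  unfold mass
  simp only [← Finset.sum_add_distrib]
  refine Finset.sum_congr rfl fun q _ => ?_
  by_cases h1 : q ∈ A <;> by_cases h2 : q ∈ B <;> simp [h1, h2]

theorem from_le_one (q : M.Q) (v : List S) (A : Set M.Q) :
    ∑ q', A.indicator (M.from_ q v) q' ≤ 1 := by
  rw [← M.from_sum q v]
  exact Finset.sum_le_sum fun _ _ => Set.indicator_le_self' (fun _ _ => M.from_nonneg _ _ _) _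

/-- states that cannot answer on `t` have mass at most `1/2` -/
theorem mass_le_half {L : Language S} (hM : M.Recognises L) {x t : List S} (hxt : x ++ t ∈ L)
    (A : Set M.Q) (hA : ∀ q ∈ A, 0 < M.dist x q → ∀ q' ∈ M.acc, M.from_ q t q' = 0) :
    M.mass x A ≤ 1 / 2 := by
  have h1 := ((hM (x ++ t)).1 hxt).2
  rw [mass_append] at h1
  have h2 : ∑ q, M.dist x q * ∑ q', M.acc.indicator (M.from_ q t) q' ≤ M.mass x Aᶜ := by
    unfold mass
    refine Finset.sum_le_sum fun q _ => ?_
    by_cases hq : q ∈ A
    · rw [Set.indicator_of_notMem (by simpa using hq)]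
      rcases (M.dist_nonneg x q).eq_or_lt with h3 | h3
      · rw [← h3, zero_mul]
      · rw [Finset.sum_eq_zero, mul_zero]
        intro q' _
        by_cases hq' : q' ∈ M.acc
        · rw [Set.indicator_of_mem hq', hA q hq h3 q' hq']
        · rw [Set.indicator_of_notMem hq']
    · rw [Set.indicator_of_mem (by simpa using hq)]
      exact mul_le_of_le_one_right (M.dist_nonneg _ _) (M.from_le_one _ _ _)
  have h3 := M.mass_compl x A
  linarith

end LVFA

/-! ### The languages -/

/-- the alphabet with five letters -/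
inductive A5 where
  | c | d | a | e | f

/-- the transition function of the automaton for `L_r`, on the states `(i, j)` and two sinks
(accepting and rejecting) -/
def dl (r : ℕ) : (ZMod r × ZMod r) ⊕ Bool → A5 → (ZMod r × ZMod r) ⊕ Bool
  | .inl (i, j), .c => .inl (i + 1, j)
  | .inl (i, j), .d => .inl (i, j + 1)
  | .inl (i, _), .a => .inl (i, i)
  | .inl (i, _), .e => .inr (decide (i = 0))
  | .inl (_, j), .f => .inr (decide (j = 0))
  | .inr b, _ => .inr b

/-- the state reached from `s` by reading `w` -/
def D (r : ℕ) (s : (ZMod r × ZMod r) ⊕ Bool) (w : List A5) : (ZMod r × ZMod r) ⊕ Bool :=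
  w.foldl (dl r) s

/-- the language `L_r` -/
def Lr (r : ℕ) : Language A5 := {w | D r (.inl (0, 0)) w = .inr true}

theorem D_append (r : ℕ) (s : (ZMod r × ZMod r) ⊕ Bool) (u v : List A5) :
    D r s (u ++ v) = D r (D r s u) v := by
  unfold D
  rw [List.foldl_append]

theorem D_c (r n : ℕ) (i j : ZMod r) :
    D r (.inl (i, j)) (List.replicate n .c) = .inl (i + n, j) := by
  induction n generalizing i with
  | zero => simp [D]
  | succ n ih =>
    rw [List.replicate_succ]
    change D r (.inl (i + 1, j)) (List.replicate n .c) = _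
    rw [ih]
    push_cast
    congr 2
    ring

theorem D_d (r n : ℕ) (i j : ZMod r) :
    D r (.inl (i, j)) (List.replicate n .d) = .inl (i, j + n) := by
  induction n generalizing j with
  | zero => simp [D]
  | succ n ih =>
    rw [List.replicate_succ]
    change D r (.inl (i, j + 1)) (List.replicate n .d) = _
    rw [ih]
    push_cast
    congr 2
    ring

/-- the test of the first component -/
def testI (r : ℕ) [NeZero r] (i : ZMod r) : List A5 := List.replicate (-i).val .c ++ [.e]

/-- the test of the second component -/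
def testJ (r : ℕ) [NeZero r] (j : ZMod r) : List A5 := List.replicate (-j).val .d ++ [.f]

theorem D_testI (r : ℕ) [NeZero r] (i i' j' : ZMod r) :
    D r (.inl (i', j')) (testI r i) = .inr (decide (i' = i)) := by
  unfold testI
  rw [D_append, D_c, ZMod.natCast_zmod_val]
  change Sum.inr _ = _
  congr 1
  simp [add_neg_eq_zero]

theorem D_testJ (r : ℕ) [NeZero r] (j i' j' : ZMod r) :
    D r (.inl (i', j')) (testJ r j) = .inr (decide (j' = j)) := by
  unfold testJ
  rw [D_append, D_d, ZMod.natCast_zmod_val]
  change Sum.inr _ = _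
  congr 1
  simp [add_neg_eq_zero]

/-- the word that leads to the state `(i + s, i + t)` from `(i, j)` -/
def mv (r : ℕ) (s t : ZMod r) : List A5 :=
  [.a] ++ List.replicate s.val .c ++ List.replicate t.val .d

theorem D_mv (r : ℕ) [NeZero r] (s t i j : ZMod r) :
    D r (.inl (i, j)) (mv r s t) = .inl (i + s, i + t) := by
  unfold mv
  rw [D_append, D_append]
  change D r (D r (.inl (i, i)) _) _ = _
  rw [D_c, D_d, ZMod.natCast_zmod_val, ZMod.natCast_zmod_val]

section LowerBound

variable {r : ℕ} [NeZero r] (M : LVFA A5)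

/-- the state `q` is compatible with the pair `(i, j)` -/
def Compat (q : M.Q) (p : ZMod r × ZMod r) : Prop :=
  ∃ x, D r (.inl (0, 0)) x = .inl p ∧ 0 < M.dist x q

theorem mass_I (hM : M.Recognises (Lr r)) {x : List A5} {i j : ZMod r}
    (hx : D r (.inl (0, 0)) x = .inl (i, j)) :
    M.mass x {q | ∃ p : ZMod r × ZMod r, p.1 ≠ i ∧ Compat M q p} ≤ 1 / 2 := by
  refine M.mass_le_half hM (t := testI r i) ?_ _ ?_
  · change D r _ (x ++ testI r i) = _
    rw [D_append, hx, D_testI]
    simp
  · rintro q ⟨⟨i', j'⟩, hne, y, hy, hpos⟩ _ q' hq'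
    by_contra h0
    have h1 : 0 < M.from_ q (testI r i) q' :=
      lt_of_le_of_ne (M.from_nonneg _ _ _) (Ne.symm h0)
    have h2 := M.dist_append_pos hpos h1
    have h3 : y ++ testI r i ∉ Lr r := by
      intro h4
      change D r _ (y ++ testI r i) = _ at h4
      rw [D_append, hy, D_testI] at h4
      simp at h4
      exact hne h4
    exact absurd (((hM _).2 h3).1 q' hq') h2.ne'

theorem mass_J (hM : M.Recognises (Lr r)) {x : List A5} {i j : ZMod r}
    (hx : D r (.inl (0, 0)) x = .inl (i, j)) :
    M.mass x {q | ∃ p : ZMod r × ZMod r, p.2 ≠ j ∧ Compat M q p} ≤ 1 / 2 := by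
  refine M.mass_le_half hM (t := testJ r j) ?_ _ ?_
  · change D r _ (x ++ testJ r j) = _
    rw [D_append, hx, D_testJ]
    simp
  · rintro q ⟨⟨i', j'⟩, hne, y, hy, hpos⟩ _ q' hq'
    by_contra h0
    have h1 : 0 < M.from_ q (testJ r j) q' :=
      lt_of_le_of_ne (M.from_nonneg _ _ _) (Ne.symm h0)
    have h2 := M.dist_append_pos hpos h1
    have h3 : y ++ testJ r j ∉ Lr r := by
      intro h4
      change D r _ (y ++ testJ r j) = _ at h4
      rw [D_append, hy, D_testJ] at h4
      simp at h4
      exact hne h4
    exact absurd (((hM _).2 h3).1 q' hq') h2.ne'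

theorem good (hM : M.Recognises (Lr r)) (p : ZMod r × ZMod r) :
    ∃ q, Compat M q p ∧ ∀ p' : ZMod r × ZMod r, Compat M q p' → p' = p := by
  by_contra hbad
  push Not at hbad
  obtain ⟨i0, j0⟩ := p
  obtain ⟨x, hx⟩ : ∃ x, D r (.inl (0, 0)) x = .inl (i0, j0) := by
    refine ⟨List.replicate i0.val .c ++ List.replicate j0.val .d, ?_⟩
    rw [D_append, D_c, D_d, ZMod.natCast_zmod_val, ZMod.natCast_zmod_val, zero_add, zero_add]
  set A : Set M.Q := {q | ∃ p : ZMod r × ZMod r, p.1 ≠ i0 ∧ Compat M q p} with hA
  set B : Set M.Q := {q | ∃ p : ZMod r × ZMod r, p.2 ≠ j0 ∧ Compat M q p} with hB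
  have hmA := mass_I M hM hx
  have hmB := mass_J M hM hx
  have hAB : M.mass x (A ∪ B) = 1 := by
    have h1 := M.mass_compl x (A ∪ B)
    have h2 : M.mass x (A ∪ B)ᶜ = 0 := by
      refine Finset.sum_eq_zero fun q _ => ?_
      by_contra h0
      have hq : q ∈ (A ∪ B)ᶜ := Set.mem_of_indicator_ne_zero h0
      rw [Set.indicator_of_mem hq] at h0
      have h3 : 0 < M.dist x q := lt_of_le_of_ne (M.dist_nonneg _ _) (Ne.symm h0)
      obtain ⟨p', hp', hne⟩ := hbad q ⟨x, hx, h3⟩
      apply hq
      by_cases h5 : p'.1 = i0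
      · right
        refine ⟨p', fun h6 => hne (Prod.ext h5 h6), hp'⟩
      · left
        exact ⟨p', h5, hp'⟩
    linarith
  have hu := M.mass_union x A B
  have hi := M.mass_nonneg x (A ∩ B)
  have hAhalf : 1 / 2 ≤ M.mass x A := by
    change M.mass x A ≤ 1 / 2 at hmA
    change M.mass x B ≤ 1 / 2 at hmB
    linarith
  -- the word leading back to `(i0, j0)`
  obtain ⟨u, hu'⟩ : ∃ u, u = mv r 0 (j0 - i0) := ⟨_, rfl⟩
  have hDu : ∀ i j, D r (.inl (i, j)) u = .inl (i, i + (j0 - i0)) := by
    intro i j
    rw [hu', D_mv, add_zero]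
  have hxu : D r (.inl (0, 0)) (x ++ u) = .inl (i0, j0) := by
    rw [D_append, hx, hDu, add_sub_cancel]
  have hmA' : M.mass (x ++ u) A ≤ 1 / 2 := mass_I M hM hxu
  have hmB' : M.mass (x ++ u) B ≤ 1 / 2 := mass_J M hM hxu
  have hcap : 1 / 2 ≤ M.mass (x ++ u) (A ∩ B) := by
    refine hAhalf.trans ?_
    rw [LVFA.mass_append]
    unfold LVFA.mass
    refine Finset.sum_le_sum fun q _ => ?_
    by_cases hq : q ∈ A
    · have h1 : ∑ q', (A ∩ B).indicator (M.from_ q u) q' = 1 := by
        rw [← M.from_sum q u]
        refine Finset.sum_congr rfl fun q' _ => ?_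
        by_cases hq' : q' ∈ A ∩ B
        · rw [Set.indicator_of_mem hq']
        · rw [Set.indicator_of_notMem hq']
          by_contra h0
          have h3 : 0 < M.from_ q u q' := lt_of_le_of_ne (M.from_nonneg _ _ _) h0
          apply hq'
          obtain ⟨⟨i', j'⟩, hne, y, hy, hpos⟩ := hq
          have h4 : Compat M q' (i', i' + (j0 - i0)) := by
            refine ⟨y ++ u, ?_, M.dist_append_pos hpos h3⟩
            rw [D_append, hy, hDu]
          refine ⟨⟨(i', i' + (j0 - i0)), hne, h4⟩, ⟨(i', i' + (j0 - i0)), ?_, h4⟩⟩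
          intro h5
          apply hne
          have h6 : i' + (j0 - i0) = j0 := h5
          have h7 : i' - i0 = 0 := by
            have : i' - i0 = i' + (j0 - i0) - j0 := by ring
            rw [this, h6, sub_self]
          exact sub_eq_zero.1 h7
      rw [Set.indicator_of_mem hq, h1, mul_one]
    · rw [Set.indicator_of_notMem hq]
      exact mul_nonneg (M.dist_nonneg _ _)
        (Finset.sum_nonneg fun _ _ => Set.indicator_nonneg (fun _ _ => M.from_nonneg _ _ _) _)
  have hu2 := M.mass_union (x ++ u) A B
  have hc2 := M.mass_compl (x ++ u) (A ∪ B)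
  have hpos : 0 < M.mass (x ++ u) (A ∪ B)ᶜ := by linarith
  obtain ⟨q, _, hq0⟩ := Finset.exists_ne_zero_of_sum_ne_zero hpos.ne'
  have hq : q ∈ (A ∪ B)ᶜ := Set.mem_of_indicator_ne_zero hq0
  rw [Set.indicator_of_mem hq] at hq0
  have hq1 : 0 < M.dist (x ++ u) q := lt_of_le_of_ne (M.dist_nonneg _ _) (Ne.symm hq0)
  obtain ⟨p', hp', hne⟩ := hbad q ⟨_, hxu, hq1⟩
  apply hq
  by_cases h5 : p'.1 = i0
  · right
    refine ⟨p', fun h6 => hne (Prod.ext h5 h6), hp'⟩
  · left
    exact ⟨p', h5, hp'⟩

theorem card_le (hM : M.Recognises (Lr r)) : r ^ 2 ≤ Fintype.card M.Q := by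
  choose F h1 h2 using good M hM
  have hinj : Function.Injective F := by
    intro p p' h
    have h3 := h1 p
    rw [h] at h3
    exact h2 p' p h3
  have := Fintype.card_le_of_injective F hinj
  rw [Fintype.card_prod, ZMod.card] at this
  nlinarith

end LowerBound

/-! ### Coding the five letters by blocks of length three over an arbitrary alphabet -/

/-- the letter coded by a block -/
def phi : Bool → Bool → Bool → A5
  | false, false, false => .c
  | false, false, true => .d
  | false, true, false => .a
  | false, true, true => .e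
  | true, _, _ => .f

/-- the code of a letter -/
def cod : A5 → List Bool
  | .c => [false, false, false]
  | .d => [false, false, true]
  | .a => [false, true, false]
  | .e => [false, true, true]
  | .f => [true, false, false]

/-- the decoding of the complete blocks -/
def dec : List Bool → List A5
  | a :: b :: c :: w => phi a b c :: dec w
  | _ => []

/-- the incomplete blocks -/
abbrev Part : Type := Option (Bool ⊕ Bool × Bool)

/-- the incomplete block at the end -/
def rest : List Bool → Part
  | _ :: _ :: _ :: w => rest w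
  | [a, b] => some (.inr (a, b))
  | [a] => some (.inl a)
  | [] => none

/-- the incomplete block as a list -/
def toL : Part → List Bool
  | none => []
  | some (.inl a) => [a]
  | some (.inr (a, b)) => [a, b]

theorem dec_append : ∀ (x y : List Bool), dec (x ++ y) = dec x ++ dec (toL (rest x) ++ y)
  | _ :: _ :: _ :: w, y => by
    have := dec_append w y
    simp only [List.cons_append, dec, rest, this]
  | [a, b], y => by simp [dec, rest, toL]
  | [a], y => by simp [dec, rest, toL]
  | [], y => by simp [dec, rest, toL]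

theorem dec_cod (u : List A5) : dec (u.flatMap cod) = u := by
  induction u with
  | nil => rfl
  | cons a u ih =>
    rw [List.flatMap_cons]
    cases a <;> simp [cod, dec, phi, ih]

/-- the language over the alphabet `S` obtained from `L_r`; the letters are read as bits -/
def Ls (r : ℕ) (ψ : S → Bool) : Language S := {w | dec (w.map ψ) ∈ Lr r}

/-- the automaton over the five letters obtained from an automaton over `S` -/
noncomputable def LVFA.conv (M : LVFA S) (s : Bool → S) : LVFA A5 where
  Q := M.Q
  start := M.start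
  acc := M.acc
  rej := M.rej
  disj := M.disj
  P := fun q a q' => M.from_ q ((cod a).map s) q'
  P_nonneg := fun q a q' => M.from_nonneg _ _ _
  P_sum := fun q a => M.from_sum _ _

theorem LVFA.conv_run (M : LVFA S) (s : Bool → S) (u : List A5) : ∀ (μ : M.Q → ℝ),
    (M.conv s).run μ u = M.run μ ((u.flatMap cod).map s) := by
  induction u with
  | nil => intro μ; rfl
  | cons a u ih =>
    intro μ
    have h1 : ((M.conv s).step μ a : M.Q → ℝ) = M.run μ ((cod a).map s) := by
      funext q'
      exact (LVFA.run_linear M ((cod a).map s) μ q').symm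
    rw [List.flatMap_cons, List.map_append, LVFA.run_append, ← h1]
    exact ih _

theorem card_le' {r : ℕ} [NeZero r] {ψ : S → Bool} {s : Bool → S} (hs : ∀ b, ψ (s b) = b)
    (M : LVFA S) (hM : M.Recognises (Ls r ψ)) : r ^ 2 ≤ Fintype.card M.Q := by
  refine card_le (M.conv s) ?_
  intro u
  have h1 : (M.conv s).dist u = M.dist ((u.flatMap cod).map s) := M.conv_run s u _
  have h2 : (u.flatMap cod).map s ∈ Ls r ψ ↔ u ∈ Lr r := by
    change dec (List.map ψ (List.map s _)) ∈ Lr r ↔ _
    rw [List.map_map, show ψ ∘ s = id from funext hs, List.map_id, dec_cod]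
  have h3 := hM ((u.flatMap cod).map s)
  rw [h2] at h3
  unfold LVFA.mass at h3 ⊢
  rw [h1]
  exact h3

/-! ### The protocol -/

/-- the state reached on `x`, with the incomplete block -/
def st (r : ℕ) (ψ : S → Bool) (x : List S) : ((ZMod r × ZMod r) ⊕ Bool) × Part :=
  (D r (.inl (0, 0)) (dec (x.map ψ)), rest (x.map ψ))

theorem append_mem (r : ℕ) (ψ : S → Bool) (x y : List S) :
    x ++ y ∈ Ls r ψ ↔ D r (st r ψ x).1 (dec (toL (st r ψ x).2 ++ y.map ψ)) = .inr true := by
  change D r _ (dec (List.map ψ (x ++ y))) = _ ↔ _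
  rw [List.map_append, dec_append, D_append]
  rfl

theorem one_side (r : ℕ) (y : List A5) : ∀ i j : ZMod r,
    (∀ j', D r (.inl (i, j')) y = .inr true ↔ D r (.inl (i, j)) y = .inr true) ∨
    (∀ i', D r (.inl (i', j)) y = .inr true ↔ D r (.inl (i, j)) y = .inr true) := by
  induction y with
  | nil => intro i j; left; intro j'; simp [D]
  | cons a y ih =>
    intro i j
    cases a with
    | c =>
      rcases ih (i + 1) j with h | h
      · left
        intro j'
        exact h j'
      · right
        intro i'
        exact h (i' + 1)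
    | d =>
      rcases ih i (j + 1) with h | h
      · left
        intro j'
        exact h (j' + 1)
      · right
        intro i'
        exact h i'
    | a => left; intro j'; exact Iff.rfl
    | e => left; intro j'; exact Iff.rfl
    | f => right; intro i'; exact Iff.rfl

/-- the messages: one of the two components of the state, or a sink -/
abbrev Ms (r : ℕ) : Type := ZMod r ⊕ (ZMod r ⊕ Bool)

/-- the state `s` may have sent the message -/
def sim (r : ℕ) : (ZMod r × ZMod r) ⊕ Bool → Ms r → Prop
  | .inl (i, _), .inl i' => i' = i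
  | .inl (_, j), .inr (.inl j') => j' = j
  | .inr b, .inr (.inr b') => b' = b
  | _, _ => False

/-- the probability of each possible message -/
noncomputable def wt (r : ℕ) : (ZMod r × ZMod r) ⊕ Bool → ℝ
  | .inl _ => 1 / 2
  | .inr _ => 1

/-- the answer: it is given if all states that may have sent the message agree -/
noncomputable def ans (r : ℕ) (m : Ms r) (y : List A5) : Option Bool :=
  if ∀ s, sim r s m → D r s y = .inr true then some true
  else if ∀ s, sim r s m → D r s y ≠ .inr true then some false else none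

theorem ans_sound {r : ℕ} {m : Ms r} {y : List A5} {b : Bool} (h : ans r m y = some b)
    {s : (ZMod r × ZMod r) ⊕ Bool} (hs : sim r s m) : b = decide (D r s y = .inr true) := by
  unfold ans at h
  split_ifs at h with h1 h2
  · rw [← Option.some_inj.1 h]
    simp [h1 s hs]
  · rw [← Option.some_inj.1 h]
    simp [h2 s hs]

theorem ans_complete {r : ℕ} {m : Ms r} {y : List A5} {s : (ZMod r × ZMod r) ⊕ Bool}
    (hs : sim r s m) (h : ∀ s', sim r s' m → (D r s' y = .inr true ↔ D r s y = .inr true)) :
    ans r m y = some (decide (D r s y = .inr true)) := by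
  unfold ans
  by_cases h1 : D r s y = .inr true
  · rw [if_pos fun s' hs' => (h s' hs').2 h1]
    simp [h1]
  · rw [if_neg fun h2 => h1 (h2 s hs), if_pos fun s' hs' h3 => h1 ((h s' hs').1 h3)]
    simp [h1]

theorem exists_ans (r : ℕ) (s : (ZMod r × ZMod r) ⊕ Bool) (y : List A5) :
    ∃ m, sim r s m ∧ ans r m y = some (decide (D r s y = .inr true)) := by
  rcases s with ⟨i, j⟩ | b
  · rcases one_side r y i j with h | h
    · refine ⟨.inl i, rfl, ans_complete rfl ?_⟩
      rintro (⟨i', j'⟩ | b) hs
      · have : i = i' := hs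
        subst this
        exact h j'
      · exact hs.elim
    · refine ⟨.inr (.inl j), rfl, ans_complete rfl ?_⟩
      rintro (⟨i', j'⟩ | b) hs
      · have : j = j' := hs
        subst this
        exact h i'
      · exact hs.elim
  · refine ⟨.inr (.inr b), rfl, ans_complete rfl ?_⟩
    rintro (⟨i', j'⟩ | b') hs
    · exact hs.elim
    · have : b = b' := hs
      subst this
      rfl

theorem wt_sum (r : ℕ) [NeZero r] (s : (ZMod r × ZMod r) ⊕ Bool) :
    ∑ m, (if sim r s m then wt r s else 0) = 1 := by
  rw [Fintype.sum_sum_type, Fintype.sum_sum_type]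
  rcases s with ⟨i, j⟩ | b
  · have h1 : ∀ a, (if sim r (.inl (i, j)) (.inl a) then wt r (.inl (i, j)) else 0) =
        if a = i then 1 / 2 else 0 := fun a => by by_cases h : a = i <;> simp [sim, wt, h]
    have h2 : ∀ a, (if sim r (.inl (i, j)) (.inr (.inl a)) then wt r (.inl (i, j)) else 0) =
        if a = j then 1 / 2 else 0 := fun a => by by_cases h : a = j <;> simp [sim, wt, h]
    have h3 : ∀ a, (if sim r (.inl (i, j)) (.inr (.inr a)) then wt r (.inl (i, j)) else 0) =
        0 := fun a => by simp [sim]
    simp only [h1, h2, h3, Finset.sum_ite_eq', Finset.mem_univ, if_true, Finset.sum_const_zero]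
    norm_num
  · have h1 : ∀ a, (if sim r (.inr b) (.inl a) then wt r (.inr b) else 0) =
        0 := fun a => by simp [sim]
    have h2 : ∀ a, (if sim r (.inr b) (.inr (.inl a)) then wt r (.inr b) else 0) =
        0 := fun a => by simp [sim]
    have h3 : ∀ a, (if sim r (.inr b) (.inr (.inr a)) then wt r (.inr b) else 0) =
        if a = b then 1 else 0 := fun a => by by_cases h : a = b <;> simp [sim, wt, h]
    simp only [h1, h2, h3, Finset.sum_ite_eq', Finset.mem_univ, if_true, Finset.sum_const_zero]
    norm_num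

/-- the protocol for `Ls` -/
noncomputable def prot (r : ℕ) [NeZero r] (ψ : S → Bool) : Protocol S where
  Msg := Ms r × Part
  μ := fun x m => if m.2 = (st r ψ x).2 then (if sim r (st r ψ x).1 m.1 then wt r (st r ψ x).1
    else 0) else 0
  μ_nonneg := by
    intro x m
    have : 0 ≤ wt r (st r ψ x).1 := by
      unfold wt
      split <;> norm_num
    split_ifs <;> simp [this]
  μ_sum := by
    intro x
    rw [Fintype.sum_prod_type, Finset.sum_comm]
    simp only
    rw [Finset.sum_eq_single (st r ψ x).2]
    · simp only [if_true]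
      exact wt_sum r _
    · intro p _ hp
      simp [hp]
    · simp
  out := fun y m o => if o = ans r m.1 (dec (toL m.2 ++ y.map ψ)) then 1 else 0
  out_nonneg := by intro y m o; split_ifs <;> norm_num
  out_sum := by intro y m; simp

theorem prot_computes (r : ℕ) [NeZero r] (ψ : S → Bool) : (prot r ψ).Computes (Ls r ψ) := by
  intro x y
  have hd : decide (x ++ y ∈ Ls r ψ) =
      decide (D r (st r ψ x).1 (dec (toL (st r ψ x).2 ++ y.map ψ)) = .inr true) :=
    decide_eq_decide.2 (append_mem r ψ x y)
  constructor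
  · rintro ⟨m, p⟩ hm
    have h1 : p = (st r ψ x).2 ∧ sim r (st r ψ x).1 m := by
      by_contra h
      have : (prot r ψ).μ x (m, p) = 0 := by
        change (if p = (st r ψ x).2 then (if sim r (st r ψ x).1 m then wt r (st r ψ x).1
          else 0) else 0) = 0
        split_ifs with h2 h3
        · exact absurd ⟨h2, h3⟩ h
        · rfl
        · rfl
      rw [this] at hm
      exact lt_irrefl _ hm
    change (if _ = ans r m (dec (toL p ++ y.map ψ)) then (1 : ℝ) else 0) = 0
    rw [if_neg]
    intro h2
    have h3 := ans_sound h2.symm h1.2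
    rw [h1.1, ← hd] at h3
    cases h4 : decide (x ++ y ∈ Ls r ψ) <;> rw [h4] at h3 <;> simp at h3
  · obtain ⟨m, hm1, hm2⟩ := exists_ans r (st r ψ x).1 (dec (toL (st r ψ x).2 ++ y.map ψ))
    have h1 : (prot r ψ).μ x (m, (st r ψ x).2) *
        (prot r ψ).out y (m, (st r ψ x).2) (some (decide (x ++ y ∈ Ls r ψ))) =
        wt r (st r ψ x).1 := by
      change (if (st r ψ x).2 = (st r ψ x).2 then (if sim r (st r ψ x).1 m then
        wt r (st r ψ x).1 else 0) else 0) * (if _ = ans r m _ then (1 : ℝ) else 0) = _
      rw [if_pos rfl, if_pos hm1, hd, hm2, if_pos rfl, mul_one]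
    have h2 : (1 : ℝ) / 2 ≤ wt r (st r ψ x).1 := by
      unfold wt
      split <;> norm_num
    refine h2.trans (h1 ▸ Finset.single_le_sum (f := fun m => (prot r ψ).μ x m *
      (prot r ψ).out y m (some (decide (x ++ y ∈ Ls r ψ)))) (fun m _ => ?_) (Finset.mem_univ _))
    exact mul_nonneg ((prot r ψ).μ_nonneg _ _) ((prot r ψ).out_nonneg _ _ _)

theorem lvmc_le (r : ℕ) [NeZero r] (ψ : S → Bool) : lvmc (Ls r ψ) ≤ 14 * r + 14 := by
  have h0 : lvmc (Ls r ψ) ≤ (prot r ψ).complexity :=
    Nat.sInf_le ⟨prot r ψ, prot_computes r ψ, rfl⟩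
  refine h0.trans ?_
  have h1 : (prot r ψ).complexity ≤ Fintype.card (Ms r × Part) := by
    unfold Protocol.complexity
    rw [Nat.card_eq_fintype_card]
    exact Fintype.card_subtype_le _
  refine h1.trans (le_of_eq ?_)
  simp only [Fintype.card_prod, Fintype.card_sum, ZMod.card, Fintype.card_option,
    Fintype.card_bool]
  ring

/-! ### Regularity -/

theorem regular (r : ℕ) [NeZero r] (ψ : S → Bool) : (Ls r ψ).IsRegular := by
  rw [Language.isRegular_iff_finite_range_leftQuotient]
  refine (Set.finite_range (fun s : ((ZMod r × ZMod r) ⊕ Bool) × Part =>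
    ({y | D r s.1 (dec (toL s.2 ++ y.map ψ)) = .inr true} : Language S))).subset ?_
  rintro _ ⟨x, rfl⟩
  refine ⟨st r ψ x, ?_⟩
  ext y
  exact (append_mem r ψ x y).symm

theorem exists_LVFA {L : Language S} (h : L.IsRegular) : ∃ M : LVFA S, M.Recognises L := by
  obtain ⟨σ, _, A, hA⟩ := h
  let M : LVFA S :=
    { Q := σ
      start := A.start
      acc := A.accept
      rej := A.acceptᶜ
      disj := disjoint_compl_right
      P := fun q a q' => if q' = A.step q a then 1 else 0
      P_nonneg := fun q a q' => by split_ifs <;> norm_num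
      P_sum := fun q a => by simp }
  have key : ∀ (w : List S) (q : σ), M.run (fun q' => if q' = q then 1 else 0) w =
      fun q' => if q' = A.evalFrom q w then 1 else 0 := by
    intro w
    induction w with
    | nil => intro q; rfl
    | cons a w ih =>
      intro q
      change M.run (M.step _ a) w = _
      have h1 : M.step (fun q' => if q' = q then 1 else 0) a =
          fun q' => if q' = A.step q a then 1 else 0 := by
        funext q'
        unfold LVFA.step
        refine (Finset.sum_eq_single q ?_ ?_).trans ?_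
        · intro x _ hx
          simp only [if_neg hx, zero_mul]
        · intro h; exact absurd (Finset.mem_univ _) h
        · simp only [if_true, one_mul]
          rfl
      rw [h1, ih]
      rfl
  have hdist : ∀ w, M.dist w = fun q' => if q' = A.eval w then 1 else 0 := fun w => key w _
  refine ⟨M, fun w => ?_⟩
  have hw : w ∈ L ↔ A.eval w ∈ A.accept := by rw [← hA]; rfl
  have hmass : ∀ B : Set σ, A.eval w ∈ B → M.mass w B = 1 := by
    intro B hB
    unfold LVFA.mass
    rw [hdist, Finset.sum_eq_single (A.eval w)]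
    · rw [Set.indicator_of_mem hB, if_pos rfl]
    · intro q _ hq
      by_cases h : q ∈ B
      · rw [Set.indicator_of_mem h, if_neg hq]
      · rw [Set.indicator_of_notMem h]
    · intro h; exact absurd (Finset.mem_univ _) h
  constructor
  · intro h
    rw [hw] at h
    refine ⟨fun q hq => ?_, ?_⟩
    · rw [hdist]
      exact if_neg fun h' => hq (by rw [h']; exact h)
    · rw [hmass M.acc h]
      norm_num
  · intro h
    rw [hw] at h
    refine ⟨fun q hq => ?_, ?_⟩
    · rw [hdist]
      exact if_neg fun h' => h (by rw [← h']; exact hq)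
    · rw [hmass M.rej h]
      norm_num

theorem sq_le_lvs {r : ℕ} [NeZero r] {ψ : S → Bool} {s : Bool → S} (hs : ∀ b, ψ (s b) = b) :
    r ^ 2 ≤ lvs (Ls r ψ) := by
  obtain ⟨M, hM⟩ := exists_LVFA (regular r ψ)
  have hne : {n | ∃ M : LVFA S, M.Recognises (Ls r ψ) ∧ n = Fintype.card M.Q}.Nonempty :=
    ⟨_, M, hM, rfl⟩
  obtain ⟨M', hM', h⟩ := Nat.sInf_mem hne
  unfold lvs
  rw [h]
  exact card_le' hs M' hM'

/-- **The gap between `lvs` and `lvmc` can be quadratic.** Over every alphabet `S` with at least
two letters: for every `r ≥ 1` there is a regular language `L` with `lvmc(L) ≤ 14 r + 14` and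
`lvs(L) ≥ r ^ 2`. Hence `m ^ 2 / 1764 ≤ G(m)` for all `m ≥ 42`; with the known bound
`G(m) ≤ m ^ 2` this gives `G(m) = Θ(m ^ 2)`. -/
theorem result (S : Type) [Fintype S] (hS : 2 ≤ Fintype.card S) :
    (∀ r : ℕ, 1 ≤ r → ∃ L : Language S, L.IsRegular ∧ lvmc L ≤ 14 * r + 14 ∧ r ^ 2 ≤ lvs L) ∧
    (∀ m : ℕ, 42 ≤ m → ∃ L : Language S, L.IsRegular ∧ lvmc L ≤ m ∧
      (m : ℝ) ^ 2 / 1764 ≤ (lvs L : ℝ)) ∧
    ∀ m : ℕ, 42 ≤ m → ((m ^ 2 / 1764 : ℕ) : ℕ∞) ≤ G S m := by
  have h1 : ∀ r : ℕ, 1 ≤ r → ∃ L : Language S, L.IsRegular ∧ lvmc L ≤ 14 * r + 14 ∧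
      r ^ 2 ≤ lvs L := by
    intro r hr
    have : NeZero r := ⟨by omega⟩
    obtain ⟨a, b, hab⟩ := Fintype.one_lt_card_iff.1 (show 1 < Fintype.card S by omega)
    refine ⟨Ls r (fun x => decide (x = a)), regular r _, lvmc_le r _,
      sq_le_lvs (s := fun t => if t = true then a else b) ?_⟩
    intro t
    cases t
    · simp [hab.symm]
    · simp
  have h2 : ∀ m : ℕ, 42 ≤ m → ∃ L : Language S, L.IsRegular ∧ lvmc L ≤ m ∧
      (m : ℝ) ^ 2 / 1764 ≤ (lvs L : ℝ) := by
    intro m hm
    obtain ⟨r, hr1, hr2⟩ : ∃ r, m / 14 = r + 1 ∧ 1 ≤ r := ⟨m / 14 - 1, by omega, by omega⟩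
    obtain ⟨L, hL1, hL2, hL3⟩ := h1 r hr2
    refine ⟨L, hL1, by omega, ?_⟩
    have h3 : m ≤ 42 * r := by omega
    have h4 : (m : ℝ) ≤ 42 * r := by exact_mod_cast h3
    have h5 : ((r : ℝ)) ^ 2 ≤ lvs L := by exact_mod_cast hL3
    have h6 : (0 : ℝ) ≤ m := Nat.cast_nonneg _
    nlinarith
  refine ⟨h1, h2, fun m hm => ?_⟩
  obtain ⟨L, hL1, hL2, hL3⟩ := h2 m hm
  unfold G
  refine le_trans ?_ (le_iSup_of_le L (le_iSup_of_le hL1 (le_iSup_of_le hL2 le_rfl)))
  rw [Nat.cast_le]
  have h3 : (m : ℝ) ^ 2 ≤ 1764 * lvs L := by linarith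
  have h4 : m ^ 2 ≤ 1764 * lvs L := by exact_mod_cast h3
  exact Nat.div_le_of_le_mul h4

end Pool.Agent.Results.MP_7e58b6_lc.QuadraticGap
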